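import Pool.Agent.Y223.G.Stm10
import Pool.Agent.Y678.G.GCHG

/-!
# The charts of the invariants satisfy the hypotheses of the theorem on atlases: second grading
-/

set_option autoImplicit false

namespace Pool.Agent.Y858.H

open IsLocalRing Pool.Agent.Y223.G

section contr

variable {k O K : Type} [CommRing k] [CommRing O] [IsDomain O] [Field K] [Algebra k O]
  [Algebra O K] [Algebra k K] [IsScalarTower k O K]

/-- the ideal of the base given by an ideal of the localisation -/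
def ctr (s : k) (𝔔 : Ideal (OL O (K := K) s)) : Ideal O where
  carrier := {o | ∀ h : algebraMap O K o ∈ OL O (K := K) s, (⟨algebraMap O K o, h⟩ :
    OL O (K := K) s) ∈ 𝔔}
  add_mem' := by
    intro a b ha hb h
    have h1 : algebraMap O K a ∈ OL O (K := K) s := ⟨0, a, by rw [pow_zero, one_mul]⟩
    have h2 : algebraMap O K b ∈ OL O (K := K) s := ⟨0, b, by rw [pow_zero, one_mul]⟩
    have h3 : (⟨algebraMap O K (a + b), h⟩ : OL O (K := K) s) =
        ⟨algebraMap O K a, h1⟩ + ⟨algebraMap O K b, h2⟩ := Subtype.ext (map_add _ _ _)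
    rw [h3]
    exact 𝔔.add_mem (ha h1) (hb h2)
  zero_mem' := by
    intro h
    have h3 : (⟨algebraMap O K 0, h⟩ : OL O (K := K) s) = 0 := Subtype.ext (map_zero _)
    rw [h3]
    exact 𝔔.zero_mem
  smul_mem' := by
    intro c a ha h
    have h1 : algebraMap O K a ∈ OL O (K := K) s := ⟨0, a, by rw [pow_zero, one_mul]⟩
    have h2 : algebraMap O K c ∈ OL O (K := K) s := ⟨0, c, by rw [pow_zero, one_mul]⟩
    have h3 : (⟨algebraMap O K (c • a), h⟩ : OL O (K := K) s) =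
        ⟨algebraMap O K c, h2⟩ * ⟨algebraMap O K a, h1⟩ := Subtype.ext (map_mul _ _ _)
    rw [h3]
    exact 𝔔.mul_mem_left _ (ha h1)

theorem mem_OLb (s : k) (o : O) : algebraMap O K o ∈ OL O (K := K) s :=
  ⟨0, o, by rw [pow_zero, one_mul]⟩

theorem mem_ctr {s : k} {𝔔 : Ideal (OL O (K := K) s)} {o : O} :
    o ∈ ctr s 𝔔 ↔ (⟨algebraMap O K o, mem_OLb s o⟩ : OL O (K := K) s) ∈ 𝔔 :=
  ⟨fun h => h _, fun h _ => h⟩

theorem ctr_maximal [IsDedekindDomain O] (hinj : Function.Injective (algebraMap O K)) {s : k}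
    {𝔔 : Ideal (OL O (K := K) s)} (hm : 𝔔.IsMaximal) (h0 : 𝔔 ≠ ⊥) : (ctr s 𝔔).IsMaximal := by
  have hp : (ctr s 𝔔).IsPrime := by
    refine ⟨?_, ?_⟩
    · rw [Ideal.ne_top_iff_one]
      intro h
      have h1 := mem_ctr.1 h
      have h2 : (⟨algebraMap O K 1, mem_OLb s 1⟩ : OL O (K := K) s) = 1 :=
        Subtype.ext (map_one _)
      rw [h2] at h1
      exact (Ideal.ne_top_iff_one _).1 hm.ne_top h1
    · intro a b h
      have h1 := mem_ctr.1 h
      have h2 : (⟨algebraMap O K (a * b), mem_OLb s (a * b)⟩ : OL O (K := K) s) =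
          ⟨algebraMap O K a, mem_OLb s a⟩ * ⟨algebraMap O K b, mem_OLb s b⟩ :=
        Subtype.ext (map_mul _ _ _)
      rw [h2] at h1
      rcases hm.isPrime.mem_or_mem h1 with h3 | h3
      · exact Or.inl (mem_ctr.2 h3)
      · exact Or.inr (mem_ctr.2 h3)
  refine hp.isMaximal ?_
  intro hbot
  apply h0
  rw [eq_bot_iff]
  rintro ⟨x, n, y, hxy⟩ hx
  have h1 : y ∈ ctr s 𝔔 := by
    rw [mem_ctr]
    have h2 : (⟨algebraMap O K y, mem_OLb s y⟩ : OL O (K := K) s) =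
        ⟨algebraMap k K s ^ n, Subalgebra.pow_mem _ (Subalgebra.algebraMap_mem _ s) n⟩ *
          ⟨x, n, y, hxy⟩ := Subtype.ext hxy.symm
    rw [h2]
    exact 𝔔.mul_mem_left _ hx
  rw [hbot, Ideal.mem_bot] at h1
  rw [h1, map_zero] at hxy
  by_cases hs : algebraMap k K s = 0
  · -- then the localisation is a quotient of the whole field; 0 has index one
    exfalso
    have h3 : ∀ w : K, w ∈ OL O (K := K) s := fun w => ⟨1, 0, by rw [hs, map_zero]; ring⟩
    by_cases hx0 : x = 0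
    · -- use another element
      obtain ⟨⟨w, hw⟩, hw1, hw2⟩ := Submodule.exists_mem_ne_zero_of_ne_bot h0
      have hw0 : w ≠ 0 := fun h => hw2 (Subtype.ext h)
      apply (Ideal.ne_top_iff_one _).1 hm.ne_top
      have h4 : (1 : OL O (K := K) s) = ⟨w⁻¹, h3 _⟩ * ⟨w, hw⟩ :=
        Subtype.ext (inv_mul_cancel₀ hw0).symm
      rw [h4]
      exact 𝔔.mul_mem_left _ hw1
    · apply (Ideal.ne_top_iff_one _).1 hm.ne_top
      have h4 : (1 : OL O (K := K) s) = ⟨x⁻¹, h3 _⟩ * ⟨x, n, y, by rw [hxy, h1, map_zero]⟩ :=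
        Subtype.ext (inv_mul_cancel₀ hx0).symm
      rw [h4]
      exact 𝔔.mul_mem_left _ hx
  · rw [Ideal.mem_bot]
    apply Subtype.ext
    show x = 0
    rcases mul_eq_zero.1 hxy with h | h
    · exact absurd h (pow_ne_zero _ hs)
    · exact h

/-- contraction of the square -/
theorem ctr_sq [IsDedekindDomain O] (hinj : Function.Injective (algebraMap O K)) {s : k}
    (hs : algebraMap k K s ≠ 0) {𝔔 : Ideal (OL O (K := K) s)} (hm : 𝔔.IsMaximal) (h0 : 𝔔 ≠ ⊥)
    {a : O} (ha : (⟨algebraMap O K a, mem_OLb s a⟩ : OL O (K := K) s) ∈ 𝔔 ^ 2) :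
    a ∈ ctr s 𝔔 ^ 2 := by
  have hM := ctr_maximal hinj hm h0
  have hsK : algebraMap k K s = algebraMap O K (algebraMap k O s) :=
    IsScalarTower.algebraMap_apply k O K s
  -- representation
  have hrep : ∀ x ∈ 𝔔, ∃ (n : ℕ), ∃ b ∈ ctr s 𝔔,
      algebraMap k K s ^ n * (x : K) = algebraMap O K b := by
    rintro ⟨x, n, y, hxy⟩ hx
    refine ⟨n, y, ?_, hxy⟩
    rw [mem_ctr]
    have h2 : (⟨algebraMap O K y, mem_OLb s y⟩ : OL O (K := K) s) =
        ⟨algebraMap k K s ^ n, Subalgebra.pow_mem _ (Subalgebra.algebraMap_mem _ s) n⟩ *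
          ⟨x, n, y, hxy⟩ := Subtype.ext hxy.symm
    rw [h2]
    exact 𝔔.mul_mem_left _ hx
  have hrep2 : ∀ x ∈ 𝔔 ^ 2, ∃ (n : ℕ), ∃ b ∈ ctr s 𝔔 ^ 2,
      algebraMap k K s ^ n * (x : K) = algebraMap O K b := by
    intro x hx
    rw [pow_two] at hx
    refine Submodule.mul_induction_on hx ?_ ?_
    · intro u hu v hv
      obtain ⟨n, b, hb, hb'⟩ := hrep u hu
      obtain ⟨m, c, hc, hc'⟩ := hrep v hv
      refine ⟨n + m, b * c, ?_, ?_⟩
      · rw [pow_two]
        exact Ideal.mul_mem_mul hb hc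
      · rw [map_mul, ← hb', ← hc']
        show algebraMap k K s ^ (n + m) * ((u : K) * (v : K)) = _
        ring
    · rintro u v ⟨n, b, hb, hb'⟩ ⟨m, c, hc, hc'⟩
      refine ⟨n + m, algebraMap k O s ^ m * b + algebraMap k O s ^ n * c,
        Ideal.add_mem _ (Ideal.mul_mem_left _ _ hb) (Ideal.mul_mem_left _ _ hc), ?_⟩
      rw [map_add, map_mul, map_mul, map_pow, map_pow, ← hsK, ← hb', ← hc']
      show algebraMap k K s ^ (n + m) * ((u : K) + (v : K)) = _
      ring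
  obtain ⟨n, b, hb, hb'⟩ := hrep2 _ ha
  have h1 : algebraMap k O s ^ n * a = b := by
    apply hinj
    rw [← hb', map_mul, map_pow, ← hsK]
  -- the element `s` is a unit modulo the ideal
  have hsn : algebraMap k O s ^ n ∉ ctr s 𝔔 := by
    intro h
    have h2 := mem_ctr.1 h
    apply (Ideal.ne_top_iff_one _).1 hm.ne_top
    have h3 : (algebraMap k K s ^ n)⁻¹ ∈ OL O (K := K) s :=
      ⟨n, 1, by rw [map_one, mul_inv_cancel₀ (pow_ne_zero _ hs)]⟩
    have h4 : (1 : OL O (K := K) s) = ⟨(algebraMap k K s ^ n)⁻¹, h3⟩ *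
        ⟨algebraMap O K (algebraMap k O s ^ n), mem_OLb s _⟩ := by
      apply Subtype.ext
      show (1 : K) = (algebraMap k K s ^ n)⁻¹ * algebraMap O K (algebraMap k O s ^ n)
      rw [map_pow, ← hsK, inv_mul_cancel₀ (pow_ne_zero _ hs)]
    rw [h4]
    exact 𝔔.mul_mem_left _ h2
  obtain ⟨c, e, he, hce⟩ := Ideal.IsMaximal.exists_inv hM hsn
  -- `c s^n + e = 1`
  have h5 : a = (1 + e) * (c * b) + e ^ 2 * a := by
    rw [← h1]
    have h6 : c * algebraMap k O s ^ n = 1 - e := by rw [← hce]; ring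
    calc a = (1 + e) * (1 - e) * a + e ^ 2 * a := by ring
      _ = (1 + e) * (c * algebraMap k O s ^ n) * a + e ^ 2 * a := by rw [h6]
      _ = _ := by ring
  rw [h5]
  refine Ideal.add_mem _ (Ideal.mul_mem_left _ _ (Ideal.mul_mem_left _ _ hb)) ?_
  exact Ideal.mul_mem_right _ _ (Ideal.pow_mem_pow he 2)

end contr

theorem t_GCHE : S_CHE → S_LDG → S_SMAF → S_REGG → S_GCHE := by
  intro hCH hLD hSM hRG k O M Y Y₂ K K₂ G Ω _ _ _ _ _ _ _ _ _ _ _ _ _ _ _ _ _ _ _ _ _ _ _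
    ι ι₂ εY ε ρ ρ₂ hE T m z hH s hDD Tb N _ 𝔔 p l τ π hs hL hin d Φ hd hΦ
  have hsK : algebraMap k K s ≠ 0 := fun h => hs (hH.injk (by rw [h, map_zero]))
  -- constants
  have lk : ∀ c : k, ∃ x : M, algebraMap M K x = algebraMap k K c := by
    intro c
    rw [IsScalarTower.algebraMap_apply k O K]
    exact hH.lo _
  have lOL : ∀ o : OL O (K := K) s, ∃ x : M, algebraMap M K x = (o : K) := by
    rintro ⟨x, n, y, h⟩
    obtain ⟨s', hs'⟩ := lk s
    obtain ⟨y', hy'⟩ := hH.lo y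
    refine ⟨y' / s' ^ n, ?_⟩
    rw [map_div₀, map_pow, hy', hs', ← h]
    field_simp
  have hOK : ∀ o : O, algebraMap O K o ∈ OL O (K := K) s := fun o => ⟨0, o, by
    rw [pow_zero, one_mul]⟩
  -- the algebras
  obtain ⟨A, hA⟩ : ∃ A : Ω → Subalgebra (OL O (K := K) s) K, A = fun ω =>
      AF (OL O (K := K) s) (z ω) d (Φ ω) := ⟨_, rfl⟩
  have hgen : ∀ g ω (a : Fin (m + 1) → ℕ), ρ g ((∏ j, z ω j ^ a j) / Φ ω) =
      (∏ j, z (g • ω) j ^ a j) / Φ (g • ω) := by
    intro g ω a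
    rw [map_div₀, map_prod, hΦ.eqv]
    congr 1
    refine Finset.prod_congr rfl fun j _ => ?_
    rw [map_pow, hH.eqv]
  have hst : ∀ g ω x, x ∈ A ω → ρ g x ∈ A (g • ω) := by
    intro g ω x hx
    rw [hA] at hx ⊢
    simp only [] at hx ⊢
    unfold AF at hx
    induction hx using Algebra.adjoin_induction with
    | mem x hx =>
      obtain ⟨y, ⟨a, ha, rfl⟩, rfl⟩ := hx
      rw [hgen]
      exact Algebra.subset_adjoin ⟨_, ⟨a, ha, rfl⟩, rfl⟩
    | algebraMap r =>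
      rw [hL.com]
      exact Subalgebra.algebraMap_mem _ _
    | add x y _ _ hx hy =>
      rw [map_add]
      exact Subalgebra.add_mem _ hx hy
    | mul x y _ _ hx hy =>
      rw [map_mul]
      exact Subalgebra.mul_mem _ hx hy
  have hft : ∀ ω, Algebra.FiniteType (OL O (K := K) s) (A ω) := by
    intro ω
    rw [hA, ← Subalgebra.fg_iff_finiteType]
    unfold AF
    rw [Subalgebra.fg_def]
    refine ⟨_, ?_, rfl⟩
    have h1 : {y : K | ∃ x ∈ MN (z ω) d, y = x / Φ ω} = (fun x => x / Φ ω) '' MN (z ω) d := by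
      ext y
      constructor
      · rintro ⟨x, hx, rfl⟩
        exact ⟨x, hx, rfl⟩
      · rintro ⟨x, hx, rfl⟩
        exact ⟨x, hx, rfl⟩
    rw [h1]
    exact (Pool.Agent.Y434.G.MN_finite _ d).image _
  have hld : ∀ (S : Finset Ω) (ω : Ω), ω ∉ S → (⨆ ω' ∈ S, A ω').LinearDisjoint (A ω) := by
    intro S ω hω
    refine hLD (OL O (K := K) s) M K Subtype.val_injective (fun o => lOL o) ?_
      (⨆ ω' ∈ S, A ω') (A ω) _ _ ?_ ?_ (hH.ld S ω hω)
    · intro x
      obtain ⟨a, b, hb, hab⟩ := hH.lf x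
      refine ⟨⟨_, hOK a⟩, ⟨_, hOK b⟩, ?_, hab⟩
      intro h
      apply hb
      apply hH.inj
      rw [map_zero]
      exact congrArg Subtype.val h
    · have h1 : (⨆ ω' ∈ S, A ω') ≤ Pool.Agent.Y434.G.toSub s lOL (IntermediateField.adjoin M
          {y : K | ∃ ω' ∈ S, ∃ j, y = z ω' j / z ω' 0}) := by
        refine iSup₂_le fun ω' hω' => ?_
        rw [hA]
        refine Pool.Agent.Y678.G.af_le lk s lOL (hH.z0 ω' 0) _ (fun j => ?_) (hΦ.mem ω')
        exact IntermediateField.subset_adjoin M _ ⟨ω', hω', j, rfl⟩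
      exact fun a ha => h1 ha
    · have h1 : A ω ≤ Pool.Agent.Y434.G.toSub s lOL (IntermediateField.adjoin M
          {y : K | ∃ j, y = z ω j / z ω 0}) := by
        rw [hA]
        refine Pool.Agent.Y678.G.af_le lk s lOL (hH.z0 ω 0) _ (fun j => ?_) (hΦ.mem ω)
        exact IntermediateField.subset_adjoin M _ ⟨j, rfl⟩
      exact fun a ha => h1 ha
  have hfx : ∀ ω g, g • ω = ω → A ω ≤ Algebra.adjoin (OL O (K := K) s)
      {x | x ∈ A ω ∧ ρ g x = x} := by
    intro ω g hg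
    have h1 : Algebra.adjoin (OL O (K := K) s) {y : K | ∃ x ∈ MN (z ω) d, y = x / Φ ω} ≤
        Algebra.adjoin (OL O (K := K) s) {x | x ∈ A ω ∧ ρ g x = x} := by
      refine Algebra.adjoin_mono ?_
      rintro y ⟨x, ⟨a, ha, rfl⟩, rfl⟩
      refine ⟨?_, ?_⟩
      · rw [hA]
        exact Algebra.subset_adjoin ⟨_, ⟨a, ha, rfl⟩, rfl⟩
      · rw [hgen, hg]
    have h2 : A ω = Algebra.adjoin (OL O (K := K) s)
        {y : K | ∃ x ∈ MN (z ω) d, y = x / Φ ω} := by rw [hA]; rfl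
    exact h2 ▸ h1
  have hrg : IsRegularRing (⨆ ω, A ω : Subalgebra (OL O (K := K) s) K) := by
    rw [hA]
    exact hRG k O K Ω s hsK m z hH.z0 hH.rg d Φ hd hΦ.mem hΦ.ne
  have key6 : ∀ i ω (q : Ideal (AF (OL O (K := K) s) (z ω) d (Φ ω))) [q.IsPrime],
      q.comap (algebraMap (OL O (K := K) s) (AF (OL O (K := K) s) (z ω) d (Φ ω))) = 𝔔 i →
      Algebra.IsSmoothAt (OL O (K := K) s) q := by
    intro i ω q hq hq𝔔
    obtain ⟨g, hg1, hg, hg2⟩ := hin i
    have hTb : ∀ o : O, Tb g ⟨algebraMap O K o, hOK o⟩ - ⟨algebraMap O K o, hOK o⟩ =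
        (⟨algebraMap O K (T g o - o), mem_OLb s _⟩ : OL O (K := K) s) := by
      intro o
      apply Subtype.ext
      show ((Tb g ⟨algebraMap O K o, hOK o⟩ : OL O (K := K) s) : K) - algebraMap O K o =
        algebraMap O K (T g o - o)
      rw [map_sub, ← hH.com]
      congr 1
      exact (hL.com g ⟨algebraMap O K o, hOK o⟩).symm
    have hM := ctr_maximal hH.inj (hL.mx i) (hL.ne i)
    refine hSM k O K hH.inj s hsK m (z ω) (hH.z0 ω) {x | x ∈ ctr s (𝔔 i)} ?_ d (Φ ω) hd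
      (hΦ.mem ω) (hΦ.ne ω) q ?_
    · intro j q' hq' h
      have hle : ctr s (𝔔 i) ≤ q'.comap (algebraMap O (AZ O (z ω) j)) := fun o ho => h o ho
      have heq : ctr s (𝔔 i) = q'.comap (algebraMap O (AZ O (z ω) j)) :=
        hM.eq_of_le (Ideal.IsPrime.comap (algebraMap O (AZ O (z ω) j)) (K := q')).ne_top hle
      refine hH.sm ω j q' ⟨g, hg1, fun o => ?_, fun o ho => ?_⟩
      · apply h
        show T g o - o ∈ ctr s (𝔔 i)
        rw [mem_ctr, ← hTb]
        exact hg _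
      · rw [← heq] at ho ⊢
        refine ctr_sq hH.inj hsK (hL.mx i) (hL.ne i) ?_
        rw [← hTb]
        exact hg2 _ (mem_ctr.1 ho)
    · intro e he h
      have h1 : (⟨algebraMap O K e, hOK e⟩ : OL O (K := K) s) ∈ 𝔔 i := mem_ctr.1 he
      rw [← hq𝔔, Ideal.mem_comap] at h1
      exact h1
  have hsm : ∀ i ω (q : Ideal (A ω)) [q.IsPrime],
      q.comap (algebraMap (OL O (K := K) s) (A ω)) = 𝔔 i →
      Algebra.IsSmoothAt (OL O (K := K) s) q := by
    subst hA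
    intro i ω q hq hq𝔔
    exact @key6 i ω q hq hq𝔔
  have hB : Blk k (OL O (K := K) s) K G Ω ρ A := ⟨hst, hft, hld, hfx, hrg⟩
  have hfin := hCH k (OL O (K := K) s) K K₂ G Ω ε hE.eK ρ ρ₂ hE.act Tb N 𝔔 p l τ π hL A hB hsm
    Y₂ ι₂ hE.fix
  unfold GRE GRG CG
  rw [hA] at hfin
  exact hfin

end Pool.Agent.Y858.H
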